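import Pool.Agent.N912.LC.Stm3

/-!
# Project LC, part LC10 (helper344): lower bound for the number of factorisations
`d e = A n^2 + B n + C`
-/

set_option autoImplicit false

namespace Pool.Agent.N344.LC

open Finset Filter
open Pool.Agent.N912.LC

/-- the set of the triples is finite -/
theorem finS (A B C : ℤ) (hA : 0 < A) (q u X : ℕ) :
    {y ∈ TQ A B C 0 1 0 1 X | y.2.2 ≡ u [MOD q]}.Finite := by
  refine Set.Finite.subset (Finset.finite_toSet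
    ((Finset.range (X + 1)) ×ˢ (Finset.range (X + 1)) ×ˢ
      (Finset.range (X ^ 2 + B.natAbs + C.natAbs + 1)))) ?_
  rintro ⟨d, e, n⟩ ⟨⟨h1, h2, h3, h4, h5⟩, -⟩
  simp only at h1 h2 h3 h4 h5
  rw [one_mul] at h3 h5
  have hd : d ≤ X := by exact_mod_cast h3
  have he : e ≤ X := by exact_mod_cast h5
  simp only [Finset.coe_product, Set.mem_prod, Finset.coe_range, Set.mem_Iio]
  refine ⟨by omega, by omega, ?_⟩
  by_contra hn
  rw [not_lt] at hn
  have hn' : (X:ℤ) ^ 2 + |B| + |C| + 1 ≤ n := by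
    have := (Nat.cast_le (α := ℤ)).2 hn
    push_cast at this
    linarith
  have hX : (0:ℤ) ≤ X := Int.natCast_nonneg X
  have h6 : (d:ℤ) * e ≤ (X:ℤ) ^ 2 := by
    have : (d:ℤ) ≤ X := by exact_mod_cast hd
    have : (e:ℤ) ≤ X := by exact_mod_cast he
    nlinarith
  have hn1 : (1:ℤ) ≤ n := by nlinarith [abs_nonneg B, abs_nonneg C, sq_nonneg (X:ℤ)]
  have h7 : (n:ℤ) ^ 2 ≤ A * n ^ 2 := by nlinarith [sq_nonneg (n:ℤ)]
  have h8 : -(|B| * n) ≤ B * n := by nlinarith [neg_abs_le B]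
  have h9 : -|C| ≤ C := neg_abs_le C
  nlinarith [abs_nonneg B, abs_nonneg C, sq_nonneg (X:ℤ)]

/-- the divisibility -/
theorem dvdE {A D E : ℕ} {s : ℤ} (hA : 1 ≤ A) (h : (D : ℤ) * E = A * s) :
    A / Nat.gcd D A ∣ E := by
  have hg : 0 < Nat.gcd D A := Nat.gcd_pos_of_pos_right _ hA
  have hc := Nat.coprime_div_gcd_div_gcd hg
  have hD : Nat.gcd D A * (D / Nat.gcd D A) = D := Nat.mul_div_cancel' (Nat.gcd_dvd_left D A)
  have hA' : Nat.gcd D A * (A / Nat.gcd D A) = A := Nat.mul_div_cancel' (Nat.gcd_dvd_right D A)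
  set g := Nat.gcd D A with hgdef
  set D' := D / g with hD'
  set A' := A / g with hA'def
  have hg' : (g : ℤ) ≠ 0 := by exact_mod_cast hg.ne'
  have h1 : (D' : ℤ) * E = A' * s := by
    apply mul_left_cancel₀ hg'
    have e1 : (g : ℤ) * (D' * E) = (D : ℤ) * E := by
      rw [← mul_assoc]
      congr 1
      exact_mod_cast hD
    have e2 : (g : ℤ) * (A' * s) = (A : ℤ) * s := by
      rw [← mul_assoc]
      congr 1
      exact_mod_cast hA'
    rw [e1, e2, h]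
  have h2 : (A' : ℤ) ∣ ((D' * E : ℕ) : ℤ) := by
    push_cast
    rw [h1]
    exact dvd_mul_right _ _
  exact hc.symm.dvd_of_dvd_mul_left (Int.natCast_dvd_natCast.1 h2)

/-- the value of the cofactors -/
theorem prodE {A D E : ℕ} {s : ℤ} (hA : 1 ≤ A) (h : (D : ℤ) * E = A * s) :
    ((D / Nat.gcd D A : ℕ) : ℤ) * ((E / (A / Nat.gcd D A) : ℕ) : ℤ) = s := by
  have hg : 0 < Nat.gcd D A := Nat.gcd_pos_of_pos_right _ hA
  have hE := dvdE hA h
  have hD : Nat.gcd D A * (D / Nat.gcd D A) = D := Nat.mul_div_cancel' (Nat.gcd_dvd_left D A)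
  have hA' : Nat.gcd D A * (A / Nat.gcd D A) = A := Nat.mul_div_cancel' (Nat.gcd_dvd_right D A)
  have hE' : (A / Nat.gcd D A) * (E / (A / Nat.gcd D A)) = E := Nat.mul_div_cancel' hE
  set g := Nat.gcd D A with hgdef
  set D' := D / g with hD'
  set A' := A / g with hA'def
  set E' := E / A' with hE'def
  have hA0 : (A : ℤ) ≠ 0 := by exact_mod_cast (by omega : A ≠ 0)
  apply mul_left_cancel₀ hA0
  rw [← h]
  have e : A * (D' * E') = D * E := by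
    calc A * (D' * E') = (g * A') * (D' * E') := by rw [hA']
      _ = (g * D') * (A' * E') := by ring
      _ = D * E := by rw [hD, hE']
  exact_mod_cast e

/-- the map of the triples -/
def Ph (A : ℕ) (κ : ℤ) (y : ℕ × ℕ × ℕ) : (ℕ × ℕ × ℕ) × ℕ :=
  ((y.1 / Nat.gcd y.1 A, y.2.1 / (A / Nat.gcd y.1 A), (((y.2.2 : ℤ) - κ) / A).toNat),
    Nat.gcd y.1 A)

theorem lc10 (h9 : S_LC9) : S_LC10 := by
  classical
  intro A B C hA hD q u hq
  obtain ⟨t, κ, ht, hB⟩ : ∃ t κ : ℤ, (t = 0 ∨ t = 1) ∧ B = 2 * κ + t := by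
    rcases Int.even_or_odd' B with ⟨k, hk | hk⟩
    · exact ⟨0, k, Or.inl rfl, by rw [hk]; ring⟩
    · exact ⟨1, k, Or.inr rfl, hk⟩
  obtain ⟨c, hc⟩ : ∃ c : ℤ, c = A * C - κ ^ 2 - t * κ := ⟨_, rfl⟩
  have hdisc : t ^ 2 < 4 * c := by rw [hc]; rw [hB] at hD; nlinarith
  obtain ⟨A', rfl⟩ : ∃ A' : ℕ, A = (A' : ℤ) := ⟨A.toNat, by rw [Int.toNat_of_nonneg hA.le]⟩
  have hA1 : 1 ≤ A' := by exact_mod_cast hA
  have hAq : (0:ℤ) < (A' : ℤ) * q := by
    have : (0:ℤ) < q := by exact_mod_cast hq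
    positivity
  obtain ⟨a, ha⟩ : ∃ a : ℕ, (a : ℤ) = (κ + A' * u) % ((A' : ℤ) * q) :=
    ⟨((κ + A' * u) % ((A' : ℤ) * q)).toNat, Int.toNat_of_nonneg (Int.emod_nonneg _ hAq.ne')⟩
  have hmod : (A' : ℤ) * q ∣ (κ + A' * u) - a := by
    rw [ha]
    exact Int.dvd_self_sub_emod
  obtain ⟨c₁, hc₁, X₀, h⟩ := h9 t c ht hdisc (A' * q) a (Nat.mul_pos hA1 hq)
  -- the exceptional triples
  set M₀ : ℕ := (κ.natAbs + 1) ^ 2 + κ.natAbs + c.natAbs + 1 with hM₀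
  set P₀ : Finset (ℕ × ℕ × ℕ) := (Finset.range M₀) ×ˢ (Finset.range M₀) ×ˢ (Finset.range M₀)
    with hP₀
  refine ⟨c₁ / (2 * A'), by positivity, max X₀ (⌈2 * (P₀.card : ℝ) / c₁⌉₊), fun X hX => ?_⟩
  have hX0 : X₀ ≤ X := (le_max_left _ _).trans hX
  have hX1 : 2 * (P₀.card : ℝ) / c₁ ≤ X := by
    have : ⌈2 * (P₀.card : ℝ) / c₁⌉₊ ≤ X := (le_max_right _ _).trans hX
    exact (Nat.le_ceil _).trans (by exact_mod_cast this)
  have hlow := h X hX0
  set F := (TP t c X).filter (fun y => y.2.2 ≡ a [MOD (A' * q)]) with hF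
  set F1 := F.filter (fun y => κ ≤ (y.2.2 : ℤ)) with hF1
  have hS := finS (A' : ℤ) B C hA q u X
  set S := {y ∈ TQ (A' : ℤ) B C 0 1 0 1 X | y.2.2 ≡ u [MOD q]} with hSdef
  -- the properties of the triples in `F`
  have hFp : ∀ y ∈ F, 1 ≤ y.1 ∧ y.1 ≤ X ∧ 1 ≤ y.2.1 ∧ y.2.1 ≤ X ∧
      ((y.1 : ℤ) * y.2.1 = (y.2.2 : ℤ) ^ 2 + t * y.2.2 + c) ∧
      ∃ k : ℤ, (y.2.2 : ℤ) - κ = A' * (u - q * k) := by
    intro y hy
    rw [hF, Finset.mem_filter, TP, Finset.mem_filter, Finset.mem_product, Finset.mem_product,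
      Finset.mem_Icc, Finset.mem_Icc, Nat.floor_natCast] at hy
    obtain ⟨⟨⟨⟨a1, a2⟩, ⟨a3, a4⟩, a5⟩, a6, a7⟩, a8⟩ := hy
    refine ⟨a1, a2, a3, a4, a6, ?_⟩
    have b1 : (((A' * q : ℕ)) : ℤ) ∣ (a : ℤ) - y.2.2 := Nat.modEq_iff_dvd.1 a8
    push_cast at b1
    obtain ⟨k, hk⟩ := dvd_add hmod b1
    refine ⟨k, ?_⟩
    linear_combination -hk
  -- the exceptional triples
  have hexc : (F.filter (fun y => ¬ κ ≤ (y.2.2 : ℤ))).card ≤ P₀.card := by
    apply Finset.card_le_card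
    intro y hy
    rw [Finset.mem_filter] at hy
    obtain ⟨hy1, hy2⟩ := hy
    obtain ⟨a1, a2, a3, a4, a5, -⟩ := hFp y hy1
    rw [not_le] at hy2
    have b0 : (0:ℤ) ≤ y.2.2 := Int.natCast_nonneg _
    have b1 : (y.2.2 : ℤ) ≤ |κ| := hy2.le.trans (le_abs_self κ)
    have b2 : (y.1 : ℤ) * y.2.1 ≤ |κ| ^ 2 + |κ| + |c| := by
      rw [a5]
      have : t * (y.2.2 : ℤ) ≤ |κ| := by
        rcases ht with rfl | rfl
        · simp
        · linarith
      nlinarith [le_abs_self c]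
    have b3 : (M₀ : ℤ) = (|κ| + 1) ^ 2 + |κ| + |c| + 1 := by
      rw [hM₀]
      push_cast
      ring
    have c1 : (1:ℤ) ≤ y.1 := by exact_mod_cast a1
    have c2 : (1:ℤ) ≤ y.2.1 := by exact_mod_cast a3
    rw [hP₀, Finset.mem_product, Finset.mem_product, Finset.mem_range, Finset.mem_range,
      Finset.mem_range]
    refine ⟨?_, ?_, ?_⟩
    · have : (y.1 : ℤ) < M₀ := by rw [b3]; nlinarith [abs_nonneg κ, abs_nonneg c]
      exact_mod_cast this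
    · have : (y.2.1 : ℤ) < M₀ := by rw [b3]; nlinarith [abs_nonneg κ, abs_nonneg c]
      exact_mod_cast this
    · have : (y.2.2 : ℤ) < M₀ := by rw [b3]; nlinarith [abs_nonneg κ, abs_nonneg c]
      exact_mod_cast this
  -- the map
  have hval : ∀ y ∈ F1, ∃ n : ℕ, (y.2.2 : ℤ) = κ + A' * n ∧ n ≡ u [MOD q] ∧
      ((y.1 : ℤ) * y.2.1 = A' * (A' * (n : ℤ) ^ 2 + B * n + C)) ∧
      (((y.2.2 : ℤ) - κ) / A').toNat = n := by
    intro y hy
    rw [hF1, Finset.mem_filter] at hy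
    obtain ⟨hy1, hy2⟩ := hy
    obtain ⟨-, -, -, -, a5, k, hk⟩ := hFp y hy1
    have hA0 : (A' : ℤ) ≠ 0 := hA.ne'
    have b1 : 0 ≤ (u : ℤ) - q * k := by
      by_contra hneg
      rw [not_le] at hneg
      have : (A' : ℤ) * (u - q * k) < 0 := mul_neg_of_pos_of_neg hA hneg
      linarith only [this, hk, hy2]
    obtain ⟨n, hn⟩ : ∃ n : ℕ, (n : ℤ) = (u : ℤ) - q * k :=
      ⟨((u : ℤ) - q * k).toNat, Int.toNat_of_nonneg b1⟩
    refine ⟨n, ?_, ?_, ?_, ?_⟩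
    · rw [hn]; linear_combination hk
    · apply Nat.modEq_iff_dvd.2
      exact ⟨k, by rw [hn]; ring⟩
    · rw [← hn] at hk
      have e1 : (y.2.2 : ℤ) = κ + A' * n := by linear_combination hk
      rw [a5, e1, hc, hB]
      ring
    · rw [hk, ← hn, Int.mul_ediv_cancel_left _ hA0, Int.toNat_natCast]
  have hmaps : ∀ y ∈ F1, Ph A' κ y ∈ hS.toFinset ×ˢ Finset.Icc 1 A' := by
    intro y hy
    obtain ⟨n, h1, h2, h3, h4⟩ := hval y hy
    have hyF : y ∈ F := (Finset.mem_filter.1 hy).1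
    obtain ⟨a1, a2, a3, a4, -⟩ := hFp y hyF
    have hg : 0 < Nat.gcd y.1 A' := Nat.gcd_pos_of_pos_right _ hA1
    rw [Finset.mem_product, Set.Finite.mem_toFinset, Finset.mem_Icc]
    refine ⟨?_, hg, Nat.gcd_le_right _ hA1⟩
    have hdE := dvdE hA1 h3
    have hE1 : 0 < y.2.1 / (A' / Nat.gcd y.1 A') := by
      apply Nat.div_pos (Nat.le_of_dvd a3 hdE)
      exact Nat.div_pos (Nat.gcd_le_right _ hA1) hg
    have hD1 : 0 < y.1 / Nat.gcd y.1 A' := Nat.div_pos (Nat.gcd_le_left _ a1) hg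
    have hE2 : y.2.1 / (A' / Nat.gcd y.1 A') ≤ X := (Nat.div_le_self _ _).trans a4
    have hD2 : y.1 / Nat.gcd y.1 A' ≤ X := (Nat.div_le_self _ _).trans a2
    refine ⟨⟨?_, ?_, ?_, ?_, ?_⟩, ?_⟩
    · show ((y.1 / Nat.gcd y.1 A' : ℕ) : ℤ) * ((y.2.1 / (A' / Nat.gcd y.1 A') : ℕ) : ℤ) =
        (A' : ℤ) * (((((y.2.2 : ℤ) - κ) / A').toNat : ℕ) : ℤ) ^ 2 +
          B * (((((y.2.2 : ℤ) - κ) / A').toNat : ℕ) : ℤ) + C
      rw [h4]
      exact prodE hA1 h3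
    · show 0 * (X : ℝ) < ((y.1 / Nat.gcd y.1 A' : ℕ) : ℝ)
      rw [zero_mul]
      exact_mod_cast hD1
    · show ((y.1 / Nat.gcd y.1 A' : ℕ) : ℝ) ≤ 1 * (X : ℝ)
      rw [one_mul]
      exact_mod_cast hD2
    · show 0 * (X : ℝ) < ((y.2.1 / (A' / Nat.gcd y.1 A') : ℕ) : ℝ)
      rw [zero_mul]
      exact_mod_cast hE1
    · show ((y.2.1 / (A' / Nat.gcd y.1 A') : ℕ) : ℝ) ≤ 1 * (X : ℝ)
      rw [one_mul]
      exact_mod_cast hE2
    · show (((y.2.2 : ℤ) - κ) / A').toNat ≡ u [MOD q]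
      rw [h4]
      exact h2
  have hinj : ∀ y ∈ F1, ∀ z ∈ F1, Ph A' κ y = Ph A' κ z → y = z := by
    intro y hy z hz hyz
    obtain ⟨n, h1, h2, h3, h4⟩ := hval y hy
    obtain ⟨n', h1', h2', h3', h4'⟩ := hval z hz
    unfold Ph at hyz
    rw [h4, h4'] at hyz
    simp only [Prod.mk.injEq] at hyz
    obtain ⟨⟨e1, e2, e3⟩, e4⟩ := hyz
    have f1 := Nat.mul_div_cancel' (Nat.gcd_dvd_left y.1 A')
    have f1' := Nat.mul_div_cancel' (Nat.gcd_dvd_left z.1 A')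
    have f2 := Nat.mul_div_cancel' (dvdE hA1 h3)
    have f2' := Nat.mul_div_cancel' (dvdE hA1 h3')
    rw [e2, e4] at f2
    rw [e1, e4] at f1
    have g1 : y.1 = z.1 := f1.symm.trans f1'
    have g2 : y.2.1 = z.2.1 := f2.symm.trans f2'
    have g3 : y.2.2 = z.2.2 := by
      have : (y.2.2 : ℤ) = z.2.2 := by rw [h1, h1', e3]
      exact_mod_cast this
    exact Prod.ext g1 (Prod.ext g2 g3)
  have hcard : F1.card ≤ hS.toFinset.card * A' := by
    calc F1.card ≤ (hS.toFinset ×ˢ Finset.Icc 1 A').card :=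
          Finset.card_le_card_of_injOn (Ph A' κ) hmaps hinj
      _ = hS.toFinset.card * A' := by rw [Finset.card_product, Nat.card_Icc, Nat.add_sub_cancel]
  rw [← Set.ncard_eq_toFinset_card _ hS] at hcard
  have hsum : F.card ≤ F1.card + P₀.card := by
    have := Finset.card_filter_add_card_filter_not (s := F) (fun y => κ ≤ (y.2.2 : ℤ))
    rw [← hF1] at this
    omega
  have hfin : c₁ * (X:ℝ) ≤ (S.ncard : ℝ) * A' + P₀.card := by
    refine hlow.trans ?_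
    exact_mod_cast hsum.trans (Nat.add_le_add_right hcard _)
  have hP : (P₀.card : ℝ) ≤ c₁ * X / 2 := by
    rw [div_le_iff₀ hc₁] at hX1
    linarith
  have hA'0 : (0:ℝ) < A' := by exact_mod_cast hA1
  rw [div_mul_eq_mul_div, div_le_iff₀ (by positivity)]
  nlinarith

end Pool.Agent.N344.LC
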